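import Pool.Agent.Helper50.VD.St

open MeasureTheory Set Filter Topology
open scoped ENNReal

noncomputable section

namespace VD.M_F2

theorem measurable_snd' : Measurable (fun y : ℝ × ℝ => ENNReal.ofReal y.2) := by fun_prop

/-- threshold level for a finite measure -/
theorem exists_level {μ : Measure (ℝ × ℝ)} {B : Set (ℝ × ℝ)} (hB : MeasurableSet B)
    (hfin : μ B < ∞) {h : ℝ × ℝ → ℝ} (hh : Measurable h) {c : ℝ≥0∞} (h0 : 0 < c) (hc : c < μ B) :
    ∃ t : ℝ, μ (B ∩ {z | t < h z}) ≤ c ∧ c ≤ μ (B ∩ {z | t ≤ h z}) := by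
  set F : ℝ → ℝ≥0∞ := fun t => μ (B ∩ {z | t < h z}) with hF
  have hms : ∀ t : ℝ, MeasurableSet (B ∩ {z | t < h z}) := fun t =>
    hB.inter (measurableSet_lt measurable_const hh)
  have hanti : ∀ s t : ℝ, s ≤ t → F t ≤ F s := by
    intro s t hst
    apply measure_mono
    rintro z ⟨hz, hz'⟩
    exact ⟨hz, lt_of_le_of_lt hst hz'⟩
  have hFfin : ∀ t, F t ≠ ∞ := fun t => (lt_of_le_of_lt (measure_mono inter_subset_left) hfin).ne
  -- nonempty
  have h1 : ∃ k : ℕ, F k ≤ c := by
    have hT : Tendsto (fun k : ℕ => F k) atTop (𝓝 (μ (⋂ k : ℕ, B ∩ {z | (k : ℝ) < h z}))) := by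
      apply tendsto_measure_iInter_atTop
      · exact fun k => (hms k).nullMeasurableSet
      · intro i j hij
        rintro z ⟨hz, hz'⟩
        have hz2 : (j : ℝ) < h z := hz'
        refine ⟨hz, show (i : ℝ) < h z from lt_of_le_of_lt ?_ hz2⟩
        exact_mod_cast hij
      · exact ⟨0, hFfin _⟩
    have he : (⋂ k : ℕ, B ∩ {z | (k : ℝ) < h z}) = ∅ := by
      rw [eq_empty_iff_forall_notMem]
      intro z hz
      obtain ⟨k, hk⟩ := exists_nat_gt (h z)
      have := (mem_iInter.mp hz k).2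
      exact absurd (hk.trans this) (lt_irrefl _)
    rw [he, measure_empty] at hT
    obtain ⟨k, hk⟩ := (hT.eventually (gt_mem_nhds h0)).exists
    exact ⟨k, hk.le⟩
  -- bounded below
  have h2 : ∃ k : ℕ, c < F (-(k : ℝ)) := by
    have hT : Tendsto (fun k : ℕ => F (-(k : ℝ))) atTop
        (𝓝 (μ (⋃ k : ℕ, B ∩ {z | -(k : ℝ) < h z}))) := by
      apply tendsto_measure_iUnion_atTop
      intro i j hij
      rintro z ⟨hz, hz'⟩
      have hz2 : -(i : ℝ) < h z := hz'
      refine ⟨hz, show -(j : ℝ) < h z from lt_of_le_of_lt ?_ hz2⟩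
      have : (i : ℝ) ≤ j := by exact_mod_cast hij
      linarith
    have he : (⋃ k : ℕ, B ∩ {z | -(k : ℝ) < h z}) = B := by
      ext z
      simp only [mem_iUnion, mem_inter_iff, mem_ofPred_eq]
      constructor
      · rintro ⟨k, hz, -⟩; exact hz
      · intro hz
        obtain ⟨k, hk⟩ := exists_nat_gt (-(h z))
        exact ⟨k, hz, by linarith⟩
    rw [he] at hT
    exact (hT.eventually (lt_mem_nhds hc)).exists
  obtain ⟨k1, hk1⟩ := h1
  obtain ⟨k2, hk2⟩ := h2
  set S : Set ℝ := {t | F t ≤ c} with hS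
  have hSne : S.Nonempty := ⟨k1, hk1⟩
  have hSbd : BddBelow S := by
    refine ⟨-(k2 : ℝ), ?_⟩
    intro t ht
    by_contra hcon
    push Not at hcon
    exact absurd (hk2.trans_le (hanti _ _ hcon.le)) (not_lt.mpr ht)
  refine ⟨sInf S, ?_, ?_⟩
  · have he : (B ∩ {z | sInf S < h z}) = ⋃ k : ℕ, B ∩ {z | sInf S + 1 / ((k : ℝ) + 1) < h z} := by
      ext z
      simp only [mem_iUnion, mem_inter_iff, mem_ofPred_eq]
      constructor
      · rintro ⟨hz, hz'⟩
        obtain ⟨k, hk⟩ := exists_nat_one_div_lt (sub_pos.mpr hz')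
        exact ⟨k, hz, by linarith⟩
      · rintro ⟨k, hz, hz'⟩
        refine ⟨hz, lt_trans ?_ hz'⟩
        have : (0 : ℝ) < 1 / ((k : ℝ) + 1) := by positivity
        linarith
    have hT : Tendsto (fun k : ℕ => F (sInf S + 1 / ((k : ℝ) + 1))) atTop
        (𝓝 (μ (⋃ k : ℕ, B ∩ {z | sInf S + 1 / ((k : ℝ) + 1) < h z}))) := by
      apply tendsto_measure_iUnion_atTop
      intro i j hij
      rintro z ⟨hz, hz'⟩
      have hz2 : sInf S + 1 / ((i : ℝ) + 1) < h z := hz'
      refine ⟨hz, show sInf S + 1 / ((j : ℝ) + 1) < h z from lt_of_le_of_lt ?_ hz2⟩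
      have := Nat.one_div_le_one_div (α := ℝ) hij
      linarith
    rw [he]
    refine le_of_tendsto' hT ?_
    intro k
    have hlt : sInf S < sInf S + 1 / ((k : ℝ) + 1) := by
      have : (0 : ℝ) < 1 / ((k : ℝ) + 1) := by positivity
      linarith
    obtain ⟨s, hs, hs'⟩ := (csInf_lt_iff hSbd hSne).mp hlt
    exact (hanti _ _ hs'.le).trans hs
  · have he : (B ∩ {z | sInf S ≤ h z}) = ⋂ k : ℕ, B ∩ {z | sInf S - 1 / ((k : ℝ) + 1) < h z} := by
      ext z
      simp only [mem_iInter, mem_inter_iff, mem_ofPred_eq]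
      constructor
      · rintro ⟨hz, hz'⟩ k
        refine ⟨hz, ?_⟩
        have : (0 : ℝ) < 1 / ((k : ℝ) + 1) := by positivity
        linarith
      · intro hk
        refine ⟨(hk 0).1, ?_⟩
        by_contra hcon
        push Not at hcon
        obtain ⟨k, hk'⟩ := exists_nat_one_div_lt (sub_pos.mpr hcon)
        have := (hk k).2
        linarith
    have hT : Tendsto (fun k : ℕ => F (sInf S - 1 / ((k : ℝ) + 1))) atTop
        (𝓝 (μ (⋂ k : ℕ, B ∩ {z | sInf S - 1 / ((k : ℝ) + 1) < h z}))) := by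
      apply tendsto_measure_iInter_atTop
      · exact fun k => (hms _).nullMeasurableSet
      · intro i j hij
        rintro z ⟨hz, hz'⟩
        have hz2 : sInf S - 1 / ((j : ℝ) + 1) < h z := hz'
        refine ⟨hz, show sInf S - 1 / ((i : ℝ) + 1) < h z from lt_of_le_of_lt ?_ hz2⟩
        have := Nat.one_div_le_one_div (α := ℝ) hij
        linarith
      · exact ⟨0, hFfin _⟩
    rw [he]
    refine ge_of_tendsto' hT ?_
    intro k
    by_contra hcon
    push Not at hcon
    have : sInf S ≤ sInf S - 1 / ((k : ℝ) + 1) := csInf_le hSbd hcon.le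
    have h3 : (0 : ℝ) < 1 / ((k : ℝ) + 1) := by positivity
    linarith

theorem integrableOn_snd {n : ℝ} {A : Set (ℝ × ℝ)} (hA : MeasurableSet A) (hs : A ⊆ Box n) :
    IntegrableOn (fun y : ℝ × ℝ => y.2) A := by
  apply Measure.integrableOn_of_bounded (M := n) (vol_lt_top hs).ne
    (continuous_snd.measurable.aestronglyMeasurable)
  filter_upwards [ae_restrict_mem hA] with y hy
  have := hs hy
  rw [Real.norm_eq_abs, abs_of_pos this.2.1]
  exact this.2.2

theorem nu_eq_ofReal {n : ℝ} {A : Set (ℝ × ℝ)} (hA : MeasurableSet A) (hs : A ⊆ Box n) :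
    nu A = ENNReal.ofReal (∫ y in A, y.2) := by
  rw [nu_apply hA, ofReal_integral_eq_lintegral_ofReal (integrableOn_snd hA hs)]
  filter_upwards [ae_restrict_mem hA] with y hy
  exact (hs hy).2.1.le

theorem integral_snd_nonneg {n : ℝ} {A : Set (ℝ × ℝ)} (hA : MeasurableSet A) (hs : A ⊆ Box n) :
    0 ≤ ∫ y in A, y.2 :=
  setIntegral_nonneg hA fun y hy => (hs hy).2.1.le

end VD.M_F2

namespace VD

open VD.M_F2

/-- bathtub principle with density y.2 -/
theorem mF2 (hX0 : StX0) : StF2 := by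
  intro n ψ c hn hψ hM hc
  obtain ⟨M, hM⟩ := hM
  have hint : ∀ A : Set (ℝ × ℝ), MeasurableSet A → A ⊆ Box n → IntegrableOn ψ A := by
    intro A hA hs
    apply Measure.integrableOn_of_bounded (M := M) (vol_lt_top hs).ne hψ.aestronglyMeasurable
    exact Eventually.of_forall fun _ => by rw [Real.norm_eq_abs]; exact hM _
  rcases eq_or_ne c 0 with h0 | h0
  · subst h0
    refine ⟨∅, MeasurableSet.empty, empty_subset _, by simp, ?_⟩
    intro A' hA' hs hnu
    have hv : volume A' = 0 := by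
      by_contra hcon
      have := (nu_pos_iff hA' (hs.trans (Box_subset_Om n))).mpr (pos_iff_ne_zero.mpr hcon)
      exact absurd hnu this.ne'
    rw [Measure.restrict_eq_zero.mpr hv]
    simp
  rcases eq_or_ne c (nu (Box n)) with h1 | h1
  · subst h1
    refine ⟨Box n, measurableSet_Box n, Subset.rfl, rfl, ?_⟩
    intro A' hA' hs hnu
    have hd : nu (Box n \ A') = 0 := by
      have hm := measure_sdiff hs hA'.nullMeasurableSet (nu_lt_top hs).ne
      rw [hm, hnu, tsub_self]
    have hv : volume (Box n \ A') = 0 := by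
      by_contra hcon
      have := (nu_pos_iff ((measurableSet_Box n).diff hA')
        (sdiff_subset.trans (Box_subset_Om n))).mpr (pos_iff_ne_zero.mpr hcon)
      exact absurd hd this.ne'
    have hae : A' =ᵐ[volume] Box n := by
      refine (ae_eq_of_subset_of_measure_ge hs ?_ hA'.nullMeasurableSet (volume_Box_lt_top n).ne)
      calc volume (Box n) = volume (A' ∪ (Box n \ A')) := by rw [union_sdiff_cancel hs]
        _ ≤ volume A' + volume (Box n \ A') := measure_union_le _ _
        _ = volume A' := by rw [hv, add_zero]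
    rw [Measure.restrict_congr_set hae]
  have hc' : c < nu (Box n) := lt_of_le_of_ne hc h1
  have hcfin : c ≠ ∞ := (hc'.trans (nu_lt_top (Subset.refl (Box n)))).ne
  have hmeas : Measurable (fun z : ℝ × ℝ => ψ z / z.2) := hψ.div measurable_snd
  obtain ⟨t, ht1, ht2⟩ := exists_level (μ := nu) (measurableSet_Box n)
    (nu_lt_top (Subset.refl (Box n))) hmeas (pos_iff_ne_zero.mpr h0) hc'
  set A1 := Box n ∩ {z : ℝ × ℝ | t < ψ z / z.2} with hA1
  set A2 := Box n ∩ {z : ℝ × ℝ | t ≤ ψ z / z.2} with hA2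
  have hA1m : MeasurableSet A1 := (measurableSet_Box n).inter (measurableSet_lt measurable_const hmeas)
  have hA2m : MeasurableSet A2 := (measurableSet_Box n).inter (measurableSet_le measurable_const hmeas)
  have h12 : A1 ⊆ A2 := fun z hz => ⟨hz.1, show t ≤ ψ z / z.2 from le_of_lt hz.2⟩
  have hA1fin : nu A1 ≠ ∞ := (nu_lt_top (inter_subset_left)).ne
  have hdiff : c - nu A1 ≤ nu (A2 \ A1) := by
    rw [measure_sdiff h12 hA1m.nullMeasurableSet hA1fin]
    exact tsub_le_tsub_right ht2 _
  obtain ⟨E, hE, hEm, hEnu⟩ := hX0.2 (A2 \ A1) (c - nu A1) (hA2m.diff hA1m) hdiff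
    (ne_top_of_le_ne_top hcfin tsub_le_self)
  have hdisj : Disjoint A1 E := by
    rw [Set.disjoint_left]
    intro z hz hz'
    exact (hE hz').2 hz
  have hsub : A1 ∪ E ⊆ Box n := by
    rintro z (hz | hz)
    · exact hz.1
    · exact (hE hz).1.1
  have hnuA : nu (A1 ∪ E) = c := by
    rw [measure_union hdisj hEm, hEnu, add_tsub_cancel_of_le ht1]
  refine ⟨A1 ∪ E, hA1m.union hEm, hsub, hnuA, ?_⟩
  intro A' hA' hs hnu
  have hAm : MeasurableSet (A1 ∪ E) := hA1m.union hEm
  -- equality of the impulse integrals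
  have himp : ∫ y in A', y.2 = ∫ y in (A1 ∪ E), y.2 := by
    have e1 := nu_eq_ofReal hA' hs
    have e2 := nu_eq_ofReal hAm hsub
    rw [hnu] at e1
    rw [hnuA] at e2
    rw [e1] at e2
    exact (ENNReal.ofReal_eq_ofReal_iff (integral_snd_nonneg hA' hs)
      (integral_snd_nonneg hAm hsub)).mp e2
  have hin : ∀ z ∈ A1 ∪ E, 0 ≤ ψ z - t * z.2 := by
    intro z hz
    have hz2 : 0 < z.2 := (hsub hz).2.1
    have : t ≤ ψ z / z.2 := by
      rcases hz with hz | hz
      · exact le_of_lt hz.2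
      · exact (hE hz).1.2
    rw [le_div_iff₀ hz2] at this
    linarith
  have hout : ∀ z ∈ Box n, z ∉ A1 ∪ E → ψ z - t * z.2 ≤ 0 := by
    intro z hz hz'
    have hz2 : 0 < z.2 := hz.2.1
    have : ¬ t < ψ z / z.2 := fun hlt => hz' (Or.inl ⟨hz, hlt⟩)
    rw [not_lt, div_le_iff₀ hz2] at this
    linarith
  have key : ∫ z in A', (ψ z - t * z.2) ≤ ∫ z in (A1 ∪ E), (ψ z - t * z.2) := by
    rw [← integral_indicator hA', ← integral_indicator hAm]
    apply integral_mono
    · rw [integrable_indicator_iff hA']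
      exact (hint A' hA' hs).sub ((integrableOn_snd hA' hs).const_mul t)
    · rw [integrable_indicator_iff hAm]
      exact (hint _ hAm hsub).sub ((integrableOn_snd hAm hsub).const_mul t)
    · intro z
      simp only [indicator]
      by_cases h1 : z ∈ A' <;> by_cases h2 : z ∈ A1 ∪ E
      · simp only [h1, h2, if_true]; exact le_rfl
      · simp only [h1, h2, if_true, if_false]
        exact hout z (hs h1) h2
      · simp only [h1, h2, if_true, if_false]
        exact hin z h2
      · simp only [h1, h2, if_false]; exact le_rfl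
  rw [integral_sub (hint A' hA' hs) ((integrableOn_snd hA' hs).const_mul t),
    integral_sub (hint _ hAm hsub) ((integrableOn_snd hAm hsub).const_mul t),
    integral_const_mul, integral_const_mul, himp] at key
  linarith

end VD
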