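import Pool.Agent.Helper50.VD.St

open MeasureTheory Set Filter Topology
open scoped ENNReal

noncomputable section

namespace VD.M_F6

theorem volume_Om : volume Om = ∞ := by
  have h : Om = (univ : Set ℝ) ×ˢ Ioi (0 : ℝ) := by
    ext z; simp [Om]
  rw [h, Measure.volume_eq_prod, Measure.prod_prod, Real.volume_univ, Real.volume_Ioi]
  simp

/-- a measurable set all of whose vertical sections have at most one point is null -/
theorem null_of_subsingleton {S : Set (ℝ × ℝ)} (hS : MeasurableSet S)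
    (h : ∀ x s t : ℝ, (x, s) ∈ S → (x, t) ∈ S → s = t) : volume S = 0 := by
  rw [Measure.volume_eq_prod, Measure.measure_prod_null hS]
  refine Eventually.of_forall fun x => ?_
  have : (Prod.mk x ⁻¹' S).Subsingleton := fun s hs t ht => h x s t hs ht
  exact this.measure_zero _

end VD.M_F6

namespace VD

open VD.M_F6

/-- structure of maximisers in the half plane -/
theorem mF6 (hK0 : StK0) (_hK1 : StK1) (_hK2 : StK2) (_hK3 : StK3) (hK4 : StK4) (hK5 : StK5)
    (_hK9 : StK9) (hX1 : StX1) (hX4 : StX4) (hM6 : StM6) : StF6 := by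
  intro c m A hc0 hc hm hmx hslack
  obtain ⟨⟨hAm, hAs, hAc, hAv⟩, hmax⟩ := hmx
  have hAfin : volume A < ∞ := lt_of_le_of_lt hAv hm.lt_top
  have hApos : 0 < volume A := (nu_pos_iff hAm hAs).mp (by rw [hAc]; exact pos_iff_ne_zero.mpr hc0)
  have hcomp : 0 < volume (Om \ A) := by
    rw [measure_sdiff hAs hAm.nullMeasurableSet hAfin.ne, volume_Om, ENNReal.top_sub hAfin.ne]
    exact ENNReal.zero_lt_top
  obtain ⟨W, hW, hW1, hW2⟩ := hX1 Om A c m measurableSet_Om Subset.rfl hc0 hc hm
    ⟨⟨hAm, hAs, hAc, hAv⟩, hmax⟩ hslack hcomp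
  obtain ⟨R0, hR0⟩ := hK4 A hAm hAs hAfin (W / 2) (by linarith)
  -- truncate
  set R := max R0 1 with hR
  have hRpos : 0 < R := lt_of_lt_of_le one_pos (le_max_right _ _)
  have hdec : ∀ z : ℝ × ℝ, 0 ≤ z.2 → R ≤ ‖z‖ → phi A z ≤ W / 2 := fun z hz hz' =>
    hR0 z hz ((le_max_left _ _).trans hz')
  set A1 := A ∩ Box R with hA1
  have hA1m : MeasurableSet A1 := hAm.inter (measurableSet_Box R)
  have hA1s : A1 ⊆ Om := inter_subset_left.trans hAs
  have hA1B : A1 ⊆ Box R := inter_subset_right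
  have hae : A =ᵐ[volume] A1 := by
    filter_upwards [hW1] with z hz
    apply propext
    constructor
    · intro hzA
      refine ⟨hzA, ?_⟩
      have h1 := hz hzA
      have hz2 : 0 < z.2 := hAs hzA
      have h2 : ‖z‖ < R := by
        by_contra hcon
        push Not at hcon
        have := hdec z hz2.le hcon
        linarith
      rw [Prod.norm_def, max_lt_iff] at h2
      refine ⟨h2.1.le, hz2, ?_⟩
      have := h2.2
      rw [Real.norm_eq_abs, abs_of_pos hz2] at this
      exact this.le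
    · exact fun hzA => hzA.1
  have hphi : ∀ z, phi A z = phi A1 z := fun z => phi_congr hae z
  have hv : volume A = volume A1 := measure_congr hae
  have hnu : nu A = nu A1 := nu_congr hae
  have hBG : BG A A = BG A1 A1 := BG_congr hae hae
  have hmx1 : IsMx Om c m A1 := by
    refine ⟨⟨hA1m, hA1s, by rw [← hnu, hAc], by rw [← hv]; exact hAv⟩, ?_⟩
    intro A' hA'
    rw [← hBG]
    exact hmax A' hA'
  have hA1pos : 0 < volume A1 := by rw [← hv]; exact hApos
  obtain ⟨τ, -, hsym, hmono⟩ := hX4 Om A1 c m (Or.inl rfl) hm hc hmx1 ⟨R, hA1B⟩ hA1pos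
  have hW1' : ∀ᵐ z, z ∈ A1 → W ≤ phi A1 z := by
    filter_upwards [hW1] with z hz hzA
    rw [← hphi]; exact hz hzA.1
  have hW2' : ∀ᵐ z, z ∈ Om → z ∉ A1 → phi A1 z ≤ W := by
    filter_upwards [hW2, hae] with z hz hz' hzO hzA
    rw [← hphi]
    apply hz hzO
    intro hcon
    exact hzA (cast hz' hcon)
  have hvert := hM6 A1 R W hA1m hA1B hA1pos hW1' (by
    filter_upwards [hW2'] with z hz hzB hzA
    exact hz (Box_subset_Om R hzB) hzA)
  have hphim : Measurable (phi A1) := hK0.2.1 A1 hA1m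
  -- level set is null
  have hlev : volume {z : ℝ × ℝ | 0 < z.2 ∧ phi A1 z = W} = 0 := by
    apply null_of_subsingleton
    · exact measurableSet_Om.inter (measurableSet_eq_fun hphim measurable_const)
    · rintro x s t ⟨hs, hs'⟩ ⟨ht, ht'⟩
      simp only at hs hs' ht ht'
      rcases lt_trichotomy s t with h | h | h
      · have := hvert x s t hs.le h
        rw [hs', ht'] at this
        exact absurd this (lt_irrefl _)
      · exact h
      · have := hvert x t s ht.le h
        rw [hs', ht'] at this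
        exact absurd this (lt_irrefl _)
  set A' : Set (ℝ × ℝ) := {z | 0 < z.2 ∧ W < phi A1 (z.1 + τ, z.2)} with hA'
  have hA'm : MeasurableSet A' := by
    apply measurableSet_Om.inter
    exact measurableSet_lt measurable_const
      (hphim.comp ((measurable_fst.add_const τ).prodMk measurable_snd))
  have hA's : A' ⊆ Om := fun z hz => hz.1
  have hsh : ∀ z : ℝ × ℝ, z ∈ sh τ A' ↔ (0 < z.2 ∧ W < phi A1 z) := by
    intro z
    simp only [sh, hA', mem_ofPred_eq, sub_add_cancel]
  have haesh : A1 =ᵐ[volume] sh τ A' := by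
    have hl : ∀ᵐ z : ℝ × ℝ, ¬ (0 < z.2 ∧ phi A1 z = W) := by
      rw [ae_iff]
      simpa using hlev
    filter_upwards [hW1', hW2', hl] with z h1 h2 h3
    apply propext
    change z ∈ A1 ↔ z ∈ sh τ A'
    rw [hsh]
    constructor
    · intro hz
      refine ⟨hA1s hz, lt_of_le_of_ne (h1 hz) ?_⟩
      intro hcon
      exact h3 ⟨hA1s hz, hcon.symm⟩
    · rintro ⟨hz, hz'⟩
      by_contra hcon
      exact absurd hz' (not_lt.mpr (h2 hz hcon))
  have hphi' : ∀ z : ℝ × ℝ, phi A' z = phi A1 (z.1 + τ, z.2) := by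
    intro z
    rw [phi_congr haesh, (hK5.2.1 A' τ hA'm hA's).1]
    simp
  -- even and decreasing
  have heven : ∀ x s : ℝ, 0 ≤ s → phi A1 (|x| + τ, s) = phi A1 (x + τ, s) := by
    intro x s hs
    rcases abs_choice x with h | h
    · rw [h]
    · rw [h]
      have := hsym (x + τ, s) hs
      rw [← this]
      congr 1
      simp only [rfl']
      congr 1
      ring
  have hdecx : ∀ x x' s : ℝ, 0 ≤ s → |x| ≤ |x'| → phi A1 (x' + τ, s) ≤ phi A1 (x + τ, s) := by
    intro x x' s hs hx
    rw [← heven x s hs, ← heven x' s hs]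
    rcases hx.lt_or_eq with h | h
    · exact (hmono (|x| + τ) (|x'| + τ) s hs (by linarith [abs_nonneg x]) (by linarith)).le
    · rw [h]
  have hdecy : ∀ x s t : ℝ, 0 ≤ s → s ≤ t → phi A1 (x, t) ≤ phi A1 (x, s) := by
    intro x s t hs hst
    rcases hst.lt_or_eq with h | h
    · exact (hvert x s t hs h).le
    · rw [h]
  refine ⟨τ, A', W, ⟨⟨hA'm, hA's, ⟨R + |τ|, ?_⟩, ?_⟩, ?_, hW, ?_⟩, hae.trans haesh⟩
  · rintro z ⟨hz, hz'⟩
    have h2 : ‖((z.1 + τ, z.2) : ℝ × ℝ)‖ < R := by
      by_contra hcon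
      push Not at hcon
      have := hdec (z.1 + τ, z.2) hz.le hcon
      rw [hphi] at this
      linarith
    rw [Prod.norm_def, max_lt_iff] at h2
    simp only [Real.norm_eq_abs] at h2
    have h3 := h2.2
    rw [abs_of_pos hz] at h3
    refine ⟨?_, hz, ?_⟩
    · calc |z.1| = |(z.1 + τ) - τ| := by congr 1; ring
        _ ≤ |z.1 + τ| + |τ| := abs_sub _ _
        _ ≤ R + |τ| := by linarith [h2.1]
    · linarith [abs_nonneg τ]
  · rintro z ⟨hz, hz'⟩ w hw hw1 hw2
    refine ⟨hw, lt_of_lt_of_le hz' ?_⟩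
    exact (hdecy (z.1 + τ) w.2 z.2 hw.le hw2).trans (hdecx w.1 z.1 w.2 hw.le hw1)
  · by_contra hcon
    rw [not_nonempty_iff_eq_empty] at hcon
    have h1 : sh τ A' = ∅ := by
      rw [hcon]; rfl
    rw [h1] at haesh
    have := measure_congr haesh
    rw [measure_empty] at this
    exact absurd this hA1pos.ne'
  · intro z hz
    rw [hphi']
    exact ⟨fun h => h.2, fun h => ⟨hz, h⟩⟩

end VD
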